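import Pool.Agent.Y89.TS.Stm2

/-! Job TS-MONO: rules for Clifford monomials. -/

set_option autoImplicit false

open Matrix Finset

namespace Pool.Agent.Y259.TS

open Pool.Agent.Y89.TS

variable {N : Type} [Fintype N] [DecidableEq N] {n : ℕ} {Γ : Fin n → Matrix N N ℂ}

lemma mono_empty : mono Γ ∅ = 1 := by simp [mono]

lemma mono_insert {a : Fin n} {s : Finset (Fin n)} (h : ∀ x ∈ s, a < x) :
    mono Γ (insert a s) = Γ a * mono Γ s := by
  have h2 : a ∉ s := fun hh => lt_irrefl _ (h a hh)
  unfold mono
  rw [Finset.sort_insert (r := (· ≤ ·)) (fun b hb => (h b hb).le) h2]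
  simp

lemma mono_single (i : Fin n) : mono Γ {i} = Γ i := by
  unfold mono
  rw [Finset.sort_singleton]
  simp

lemma ins_eq {a : Fin n} {s : Finset (Fin n)} (h : a ∉ s) : insert a s = symmDiff {a} s := by
  ext x
  simp only [Finset.mem_insert, Finset.mem_symmDiff, Finset.mem_singleton]
  constructor
  · rintro (rfl | hx)
    · exact Or.inl ⟨rfl, h⟩
    · exact Or.inr ⟨hx, fun e => h (e ▸ hx)⟩
  · rintro (⟨hx, -⟩ | ⟨hx, -⟩)
    · exact Or.inl hx
    · exact Or.inr hx

lemma gam_mono (hΓ : Clf Γ) (i : Fin n) (s : Finset (Fin n)) :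
    Γ i * mono Γ s = mono Γ (symmDiff {i} s) ∨ Γ i * mono Γ s = -mono Γ (symmDiff {i} s) := by
  induction s using Finset.induction_on_min with
  | empty =>
    left
    rw [mono_empty, mul_one, ← Finset.bot_eq_empty, symmDiff_bot, mono_single]
  | insert a s h ih =>
    have ha : a ∉ s := fun hh => lt_irrefl _ (h a hh)
    rcases lt_trichotomy i a with hi | hi | hi
    · left
      have h1 : ∀ x ∈ insert a s, i < x := by
        intro x hx
        rcases Finset.mem_insert.1 hx with rfl | hx
        · exact hi
        · exact hi.trans (h x hx)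
      have h2 : i ∉ insert a s := fun hh => lt_irrefl _ (h1 i hh)
      rw [← ins_eq h2, mono_insert h1]
    · left
      subst hi
      rw [mono_insert h, ← mul_assoc, hΓ.sq, one_mul, ins_eq ha, ← symmDiff_assoc,
        symmDiff_self, bot_symmDiff]
    · have hne : i ≠ a := hi.ne'
      have h1 : ∀ x ∈ symmDiff {i} s, a < x := by
        intro x hx
        rw [Finset.mem_symmDiff, Finset.mem_singleton] at hx
        rcases hx with ⟨rfl, -⟩ | ⟨hx, -⟩
        · exact hi
        · exact h x hx
      have h2 : a ∉ symmDiff {i} s := fun hh => lt_irrefl _ (h1 a hh)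
      have h3 : symmDiff {i} (insert a s) = insert a (symmDiff {i} s) := by
        rw [ins_eq ha, ins_eq h2, ← symmDiff_assoc, ← symmDiff_assoc, symmDiff_comm ({i} : Finset (Fin n)) {a}]
      rw [mono_insert h, ← mul_assoc, hΓ.anti i a hne, neg_mul, mul_assoc, h3, mono_insert h1]
      rcases ih with e | e
      · right
        rw [e]
      · left
        rw [e, mul_neg, neg_neg]

lemma mono_mul (hΓ : Clf Γ) (s t : Finset (Fin n)) :
    mono Γ s * mono Γ t = mono Γ (symmDiff s t) ∨
      mono Γ s * mono Γ t = -mono Γ (symmDiff s t) := by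
  induction s using Finset.induction_on_min with
  | empty =>
    left
    rw [mono_empty, one_mul, ← Finset.bot_eq_empty, bot_symmDiff]
  | insert a s h ih =>
    have ha : a ∉ s := fun hh => lt_irrefl _ (h a hh)
    have h3 : symmDiff (insert a s) t = symmDiff {a} (symmDiff s t) := by
      rw [ins_eq ha, symmDiff_assoc]
    rw [mono_insert h, mul_assoc, h3]
    rcases gam_mono hΓ a (symmDiff s t) with e | e <;> rcases ih with e' | e'
    · left
      rw [e', e]
    · right
      rw [e', mul_neg, e]
    · right
      rw [e', e]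
    · left
      rw [e', mul_neg, e, neg_neg]

lemma gam_comm (hΓ : Clf Γ) (i : Fin n) (t : Finset (Fin n)) :
    Γ i * mono Γ t = ((-1 : ℂ) ^ (t.card + if i ∈ t then 1 else 0)) • (mono Γ t * Γ i) := by
  induction t using Finset.induction_on_min with
  | empty => simp [mono_empty]
  | insert a t h ih =>
    have ha : a ∉ t := fun hh => lt_irrefl _ (h a hh)
    rw [mono_insert h, Finset.card_insert_of_notMem ha]
    by_cases hi : i = a
    · subst hi
      rw [if_neg ha] at ih
      rw [if_pos (Finset.mem_insert_self _ _), mul_assoc, ih, mul_smul_comm]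
      congr 1
      · rw [add_zero, add_assoc, pow_add]
        norm_num
    · have hm : (i ∈ insert a t) ↔ i ∈ t := by
        rw [Finset.mem_insert]
        constructor
        · rintro (h | h)
          · exact absurd h hi
          · exact h
        · exact Or.inr
      rw [← mul_assoc, hΓ.anti i a hi, neg_mul, mul_assoc, ih, mul_smul_comm, mul_assoc]
      have e : t.card + 1 + (if i ∈ insert a t then 1 else 0)
          = (t.card + if i ∈ t then 1 else 0) + 1 := by
        simp only [hm]
        ring
      rw [e, pow_succ, mul_neg_one, neg_smul]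

theorem t_mono : S_mono := by
  intro N _ _ n Γ hΓ
  refine ⟨mono_empty, mono_single, mono_mul hΓ, ?_⟩
  intro s t
  induction s using Finset.induction_on_min with
  | empty => simp [mono_empty]
  | insert a s h ih =>
    have ha : a ∉ s := fun hh => lt_irrefl _ (h a hh)
    rw [mono_insert h, Finset.card_insert_of_notMem ha, mul_assoc, ih, mul_smul_comm,
      ← mul_assoc, gam_comm hΓ a t, smul_mul_assoc, smul_smul, mul_assoc, ← pow_add]
    congr 2
    by_cases hat : a ∈ t
    · rw [if_pos hat, Finset.insert_inter_of_mem hat, Finset.card_insert_of_notMem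
        (fun hh => ha (Finset.mem_inter.1 hh).1)]
      ring
    · rw [if_neg hat, Finset.insert_inter_of_notMem hat]
      ring

end Pool.Agent.Y259.TS
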