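import Pool.Agent.Y89.TS.Stm2

/-! Job TS-WEIL: the Weil operator fixes the Hodge classes. -/

set_option autoImplicit false

open Matrix Finset

namespace Pool.Agent.Y259.TS

open Pool.Agent.Y89.TS
open Pool.Agent.Y89.KS (sl der)

variable {ι : Type} [Fintype ι] [DecidableEq ι]

/-- exchange of the value in the slot `s` with a further index -/
def swp {k : ℕ} (s : Fin k) : ((Fin k → ι) × ι) ≃ ((Fin k → ι) × ι) where
  toFun x := (Function.update x.1 s x.2, x.1 s)
  invFun x := (Function.update x.1 s x.2, x.1 s)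
  left_inv x := by
    simp
  right_inv x := by
    simp

/-- the one parameter group -/
noncomputable def G (z : Matrix ι ι ℂ) (t : ℝ) (a b : ι) : ℂ :=
  (Real.cos t : ℂ) * (1 : Matrix ι ι ℂ) a b + Complex.I * (Real.sin t : ℂ) * z a b

lemma G_deriv {z : Matrix ι ι ℂ} (hz : z * z = 1) (t : ℝ) (a b : ι) :
    HasDerivAt (fun t => G z t a b) (Complex.I * ∑ q, z a q * G z t q b) t := by
  have h1 : HasDerivAt (fun t : ℝ => (Real.cos t : ℂ)) ((-Real.sin t : ℝ) : ℂ) t :=
    (Real.hasDerivAt_cos t).ofReal_comp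
  have h2 : HasDerivAt (fun t : ℝ => (Real.sin t : ℂ)) ((Real.cos t : ℝ) : ℂ) t :=
    (Real.hasDerivAt_sin t).ofReal_comp
  have h3 := (h1.mul_const ((1 : Matrix ι ι ℂ) a b)).add
    ((h2.const_mul Complex.I).mul_const (z a b))
  have e : Complex.I * ∑ q, z a q * G z t q b
      = ((-Real.sin t : ℝ) : ℂ) * (1 : Matrix ι ι ℂ) a b
        + Complex.I * ((Real.cos t : ℝ) : ℂ) * z a b := by
    have e1 : ∑ q, z a q * G z t q b = (Real.cos t : ℂ) * z a b
        + Complex.I * (Real.sin t : ℂ) * (1 : Matrix ι ι ℂ) a b := by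
      have e2 : ∑ q, z a q * (1 : Matrix ι ι ℂ) q b = z a b := by
        have : (z * (1 : Matrix ι ι ℂ)) a b = z a b := by rw [mul_one]
        rw [Matrix.mul_apply] at this
        exact this
      have e3 : ∑ q, z a q * z q b = (1 : Matrix ι ι ℂ) a b := by
        rw [← hz, Matrix.mul_apply]
      rw [← e3]
      have e4 : z a b = ∑ q, z a q * (1 : Matrix ι ι ℂ) q b := e2.symm
      conv_rhs => rw [e4]
      rw [Finset.mul_sum, Finset.mul_sum, ← Finset.sum_add_distrib]
      refine Finset.sum_congr rfl fun q _ => ?_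
      unfold G
      ring
    rw [e1]
    have hI := Complex.I_mul_I
    rw [Complex.ofReal_neg]
    linear_combination (Real.sin t : ℂ) * (1 : Matrix ι ι ℂ) a b * hI
  rw [e]
  exact h3

lemma slot_sum {k : ℕ} (s : Fin k) (z : Matrix ι ι ℂ) (t : ℝ) (f : (Fin k → ι) → ℂ)
    (I : Fin k → ι) :
    ∑ J : Fin k → ι, ((∏ s' ∈ Finset.univ.erase s, G z t (J s') (I s')) *
      (Complex.I * ∑ q, z (J s) q * G z t q (I s))) * f J
    = Complex.I * ∑ J : Fin k → ι, (∏ s', G z t (J s') (I s')) * sl s z f J := by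
  have h1 : ∀ J : Fin k → ι, ((∏ s' ∈ Finset.univ.erase s, G z t (J s') (I s')) *
      (Complex.I * ∑ q, z (J s) q * G z t q (I s))) * f J
      = Complex.I * ∑ q, (∏ s', G z t ((Function.update J s q) s') (I s')) * (z (J s) q * f J) := by
    intro J
    have h2 : ∀ q, (∏ s', G z t ((Function.update J s q) s') (I s'))
        = G z t q (I s) * ∏ s' ∈ Finset.univ.erase s, G z t (J s') (I s') := by
      intro q
      rw [← Finset.mul_prod_erase _ _ (Finset.mem_univ s), Function.update_self]
      congr 1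
      refine Finset.prod_congr rfl fun s' hs' => ?_
      rw [Function.update_of_ne (Finset.ne_of_mem_erase hs')]
    simp only [h2]
    rw [Finset.mul_sum, Finset.mul_sum, Finset.mul_sum, Finset.sum_mul]
    refine Finset.sum_congr rfl fun q _ => ?_
    ring
  rw [Finset.sum_congr rfl fun J _ => h1 J, ← Finset.mul_sum]
  congr 1
  have h3 : ∀ J : Fin k → ι, (∏ s', G z t (J s') (I s')) * sl s z f J
      = ∑ p, (∏ s', G z t (J s') (I s')) * (z p (J s) * f (Function.update J s p)) := by
    intro J
    unfold sl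
    rw [Finset.mul_sum]
  rw [Finset.sum_congr rfl fun J _ => h3 J]
  rw [← Fintype.sum_prod_type' (fun (J : Fin k → ι) (q : ι) =>
      (∏ s', G z t ((Function.update J s q) s') (I s')) * (z (J s) q * f J)),
    ← Fintype.sum_prod_type' (fun (J : Fin k → ι) (p : ι) =>
      (∏ s', G z t (J s') (I s')) * (z p (J s) * f (Function.update J s p)))]
  refine (Fintype.sum_equiv (swp s) _ _ fun x => ?_)
  simp [swp]

theorem t_weil : S_weil := by
  intro ι _ _ y hy k f hf
  obtain ⟨z, hz⟩ : ∃ z : Matrix ι ι ℂ, z = (2 : ℂ) • y := ⟨_, rfl⟩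
  have hzz : z * z = 1 := by
    rw [hz, smul_mul_smul_comm]
    norm_num
    exact hy
  have hder : ∀ J, ∑ s, sl s z f J = 0 := by
    intro J
    have h1 : ∑ s, sl s z f J = 2 * der y f J := by
      unfold der
      rw [Finset.mul_sum]
      refine Finset.sum_congr rfl fun s _ => ?_
      unfold sl
      rw [Finset.mul_sum]
      refine Finset.sum_congr rfl fun p _ => ?_
      rw [hz, Matrix.smul_apply, smul_eq_mul]
      ring
    rw [h1, hf]
    simp
  funext I
  let φ : ℝ → ℂ := fun t => ∑ J : Fin k → ι, (∏ s, G z t (J s) (I s)) * f J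
  have hφ : ∀ t, HasDerivAt φ 0 t := by
    intro t
    have h1 : HasDerivAt φ (∑ J : Fin k → ι, (∑ s, (∏ s' ∈ Finset.univ.erase s,
        G z t (J s') (I s')) • (Complex.I * ∑ q, z (J s) q * G z t q (I s))) * f J) t := by
      refine HasDerivAt.fun_sum fun J _ => ?_
      refine HasDerivAt.mul_const ?_ (f J)
      exact HasDerivAt.fun_finsetProd (fun s _ => G_deriv hzz t (J s) (I s))
    have h2 : (∑ J : Fin k → ι, (∑ s, (∏ s' ∈ Finset.univ.erase s,
        G z t (J s') (I s')) • (Complex.I * ∑ q, z (J s) q * G z t q (I s))) * f J) = 0 := by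
      have h3 : (∑ J : Fin k → ι, (∑ s, (∏ s' ∈ Finset.univ.erase s,
          G z t (J s') (I s')) • (Complex.I * ∑ q, z (J s) q * G z t q (I s))) * f J)
          = ∑ s, ∑ J : Fin k → ι, ((∏ s' ∈ Finset.univ.erase s, G z t (J s') (I s')) *
            (Complex.I * ∑ q, z (J s) q * G z t q (I s))) * f J := by
        rw [Finset.sum_comm]
        refine Finset.sum_congr rfl fun J _ => ?_
        rw [Finset.sum_mul]
        simp only [smul_eq_mul]
      rw [h3, Finset.sum_congr rfl fun s _ => slot_sum s z t f I, ← Finset.mul_sum,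
        Finset.sum_comm]
      have h4 : ∀ J : Fin k → ι, ∑ s, (∏ s', G z t (J s') (I s')) * sl s z f J = 0 := by
        intro J
        rw [← Finset.mul_sum, hder, mul_zero]
      rw [Finset.sum_congr rfl fun J _ => h4 J]
      simp
    rw [h2] at h1
    exact h1
  have hconst : φ (Real.pi / 2) = φ 0 :=
    is_const_of_deriv_eq_zero (fun t => (hφ t).differentiableAt) (fun t => (hφ t).deriv) _ _
  have h0 : φ 0 = f I := by
    show ∑ J : Fin k → ι, (∏ s, G z 0 (J s) (I s)) * f J = f I
    rw [Finset.sum_eq_single I]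
    · have : ∀ s, G z 0 (I s) (I s) = 1 := by
        intro s
        simp [G]
      simp [this]
    · intro J _ hJ
      obtain ⟨s, hs⟩ := Function.ne_iff.1 hJ
      rw [Finset.prod_eq_zero (Finset.mem_univ s), zero_mul]
      simp [G, Matrix.one_apply_ne hs]
    · intro h
      exact absurd (Finset.mem_univ I) h
  have h1 : φ (Real.pi / 2) = act ((2 * Complex.I) • y)ᵀ f I := by
    show ∑ J : Fin k → ι, (∏ s, G z (Real.pi / 2) (J s) (I s)) * f J = _
    unfold act
    refine Finset.sum_congr rfl fun J _ => ?_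
    congr 1
    refine Finset.prod_congr rfl fun s _ => ?_
    unfold G
    rw [hz, Real.cos_pi_div_two, Real.sin_pi_div_two]
    simp only [Matrix.transpose_apply, Matrix.smul_apply, smul_eq_mul]
    push_cast
    ring
  rw [← h1, hconst, h0]

end Pool.Agent.Y259.TS
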